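import Pool.Agent.Helper27.CB.St

/-! # CB module HXW: the p-hexagon inequality in terms of wd -/

set_option autoImplicit false

open MeasureTheory Set
open scoped ENNReal Pointwise

namespace Pool.Agent.Helper49.CB

open Pool.Agent.Helper27.CB

/-- a compact convex nonempty set of reals is a segment; the end points belong to the set -/
theorem seg_HXW {s : Set ℝ} (hc : IsCompact s) (hv : Convex ℝ s) (hn : s.Nonempty) :
    s = Icc (sInf s) (sSup s) ∧ sInf s ∈ s ∧ sSup s ∈ s ∧ sInf s ≤ sSup s := by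
  have h1 := hc.sInf_mem hn
  have h2 := hc.sSup_mem hn
  have h3 : sInf s ≤ sSup s := csInf_le_csSup hn hc.bddBelow hc.bddAbove
  refine ⟨?_, h1, h2, h3⟩
  apply Subset.antisymm
  · intro x hx
    exact ⟨csInf_le hc.bddBelow hx, le_csSup hc.bddAbove hx⟩
  · exact hv.ordConnected.out h1 h2

/-- the measure of a compact convex nonempty set of reals -/
theorem vol_HXW {s : Set ℝ} (hc : IsCompact s) (hv : Convex ℝ s) (hn : s.Nonempty) :
    (volume s).toReal = sSup s - sInf s := by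
  obtain ⟨h1, -, -, h2⟩ := seg_HXW hc hv hn
  conv_lhs => rw [h1]
  rw [Real.volume_Icc, ENNReal.toReal_ofReal (by linarith)]

theorem hHXW (h : StSLK) : StHXW := by
  intro L F hL hH s hs hso
  obtain ⟨k1, k2, -, -, -, k6, -, -⟩ := h L hL
  have hn := k2 s hs.le hso
  obtain ⟨hseg, ha, hb, hab⟩ := seg_HXW (k1 s).1 (k1 s).2 hn
  have hne : (Prod.snd '' L).Nonempty := by
    rw [← k6]
    exact k2 0 le_rfl (hs.le.trans hso)
  have hcp : IsCompact (Prod.snd '' L) := hL.cpt.image continuous_snd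
  obtain ⟨p3, hp3, e3⟩ := hcp.sInf_mem hne
  obtain ⟨p0, hp0, e0⟩ := hcp.sSup_mem hne
  have hwd : wd L s = sSup (Pool.Agent.Helper27.CB.hs L s) - sInf (Pool.Agent.Helper27.CB.hs L s) := vol_HXW (k1 s).1 (k1 s).2 hn
  obtain ⟨t, ht1, ht2⟩ := ha
  obtain ⟨t', ht1', ht2'⟩ := hb
  have h3 : p3.2 ≤ sInf (Pool.Agent.Helper27.CB.hs L s) := by
    rw [e3]
    exact csInf_le hcp.bddBelow ⟨_, ht1, rfl⟩
  have h0 : sSup (Pool.Agent.Helper27.CB.hs L s) ≤ p0.2 := by
    rw [e0]
    exact le_csSup hcp.bddAbove ⟨_, ht1', rfl⟩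
  have := hH s p0 p3 (t, sInf (Pool.Agent.Helper27.CB.hs L s))
    (t', sSup (Pool.Agent.Helper27.CB.hs L s)) hs hp0 hp3 ht1 ht2 ht1' ht2' h3 hab h0
  rw [hwd]
  unfold ht
  rw [← e0, ← e3]
  exact this

end Pool.Agent.Helper49.CB
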