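import Pool.Agent.Helper27.CB.St

/-! # CB module PLR: the polar body is a body -/

set_option autoImplicit false

open MeasureTheory Set
open scoped ENNReal Pointwise

namespace Pool.Agent.Helper49.CB

open Pool.Agent.Helper27.CB

/-- the origin is an interior point of a symmetric body -/
theorem zero_mem_interior_PLR {D : Set P2} (hD : Bd D) (hS : Sy D) : (0 : P2) ∈ interior D := by
  obtain ⟨x, hx⟩ := hD.int
  have h1 : -x ∈ D := hS x (interior_subset hx)
  have h2 := hD.cvx.combo_interior_self_mem_interior hx h1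
    (show (0 : ℝ) < 1 / 2 by norm_num) (show (0 : ℝ) ≤ 1 / 2 by norm_num) (by norm_num)
  have h3 : (1 / 2 : ℝ) • x + (1 / 2 : ℝ) • (-x) = 0 := by
    rw [smul_neg, add_neg_cancel]
  rwa [h3] at h2

theorem det2_neg_PLR (z y : P2) : det2 (-z) y = - det2 z y := by
  unfold det2
  simp only [Prod.fst_neg, Prod.snd_neg]
  ring

theorem hPLR (_h : StCTN) : StPLR := by
  intro D hD hS
  have h0 := zero_mem_interior_PLR hD hS
  obtain ⟨ρ, hρ, hball⟩ := Metric.isOpen_iff.1 isOpen_interior 0 h0
  have hρ2 : 0 < ρ / 2 := by linarith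
  have m1 : ((ρ / 2, 0) : P2) ∈ D := by
    apply interior_subset
    apply hball
    rw [Metric.mem_ball, dist_zero_right, Prod.norm_mk, norm_zero, Real.norm_eq_abs,
      abs_of_pos hρ2, max_eq_left hρ2.le]
    linarith
  have m2 : ((0, ρ / 2) : P2) ∈ D := by
    apply interior_subset
    apply hball
    rw [Metric.mem_ball, dist_zero_right, Prod.norm_mk, norm_zero, Real.norm_eq_abs,
      abs_of_pos hρ2, max_eq_right hρ2.le]
    linarith
  obtain ⟨R, hR⟩ := hD.cpt.isBounded.exists_norm_le
  have hR0 : 0 ≤ R := (norm_nonneg _).trans (hR _ m1)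
  have hcoord : ∀ y ∈ D, |y.1| ≤ R ∧ |y.2| ≤ R := by
    intro y hy
    have h1 := hR y hy
    rw [Prod.norm_def, max_le_iff, Real.norm_eq_abs, Real.norm_eq_abs] at h1
    exact h1
  refine ⟨⟨?_, ?_, ?_⟩, ?_⟩
  · -- convex
    intro z hz z' hz' a b ha hb hab y hy
    have e : det2 (a • z + b • z') y = a * det2 z y + b * det2 z' y := by
      unfold det2
      simp only [Prod.fst_add, Prod.snd_add, Prod.smul_fst, Prod.smul_snd, smul_eq_mul]
      ring
    rw [e]
    calc |a * det2 z y + b * det2 z' y| ≤ |a * det2 z y| + |b * det2 z' y| := abs_add_le _ _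
      _ = a * |det2 z y| + b * |det2 z' y| := by
          rw [abs_mul, abs_mul, abs_of_nonneg ha, abs_of_nonneg hb]
      _ ≤ a * 1 + b * 1 :=
          add_le_add (mul_le_mul_of_nonneg_left (hz y hy) ha)
            (mul_le_mul_of_nonneg_left (hz' y hy) hb)
      _ = 1 := by linarith
  · -- compact
    apply Metric.isCompact_of_isClosed_isBounded
    · have : plr D = ⋂ y ∈ D, {z : P2 | |det2 z y| ≤ 1} := by
        ext z
        simp only [plr, mem_ofPred_eq, mem_iInter]
      rw [this]
      apply isClosed_biInter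
      intro y _
      apply isClosed_le _ continuous_const
      unfold det2
      fun_prop
    · rw [Metric.isBounded_iff_subset_closedBall 0]
      refine ⟨2 / ρ, ?_⟩
      intro z hz
      rw [Metric.mem_closedBall, dist_zero_right, Prod.norm_def, max_le_iff, Real.norm_eq_abs,
        Real.norm_eq_abs]
      have h1 := hz _ m1
      have h2 := hz _ m2
      unfold det2 at h1 h2
      simp only [mul_zero, zero_sub, sub_zero, abs_neg, abs_mul, abs_of_pos hρ2] at h1 h2
      constructor
      · rw [le_div_iff₀ hρ]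
        linarith
      · rw [le_div_iff₀ hρ]
        linarith
  · -- interior
    have hr : 0 < 1 / (2 * R + 1) := by positivity
    refine ⟨0, ?_⟩
    apply interior_maximal (s := plr D) _ Metric.isOpen_ball
      (Metric.mem_ball_self (x := (0 : P2)) hr)
    intro z hz y hy
    rw [Metric.mem_ball, dist_zero_right, Prod.norm_def, max_lt_iff, Real.norm_eq_abs,
      Real.norm_eq_abs] at hz
    obtain ⟨c1, c2⟩ := hcoord y hy
    unfold det2
    have hr' : 1 / (2 * R + 1) * (2 * R + 1) = 1 := by
      field_simp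
    calc |z.1 * y.2 - z.2 * y.1| ≤ |z.1 * y.2| + |z.2 * y.1| := abs_sub _ _
      _ = |z.1| * |y.2| + |z.2| * |y.1| := by rw [abs_mul, abs_mul]
      _ ≤ 1 / (2 * R + 1) * R + 1 / (2 * R + 1) * R :=
          add_le_add (mul_le_mul hz.1.le c2 (abs_nonneg _) hr.le)
            (mul_le_mul hz.2.le c1 (abs_nonneg _) hr.le)
      _ ≤ 1 := by nlinarith
  · intro z hz y hy
    rw [det2_neg_PLR, abs_neg]
    exact hz y hy

end Pool.Agent.Helper49.CB
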