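import Pool.Agent.Helper27.CB.St

/-! # CB module RBD: rotated bodies -/

set_option autoImplicit false

open MeasureTheory Set
open scoped ENNReal Pointwise

namespace Pool.Agent.Helper49.CB

open Pool.Agent.Helper27.CB

/-- the rotation as a linear map -/
noncomputable def rotL (φ : ℝ) : P2 →ₗ[ℝ] P2 :=
  Matrix.toLin (Module.Basis.finTwoProd ℝ) (Module.Basis.finTwoProd ℝ)
    !![Real.cos φ, -Real.sin φ; Real.sin φ, Real.cos φ]

theorem rotL_apply (φ : ℝ) (q : P2) : rotL φ q = rot φ q := by
  unfold rotL rot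
  rw [Matrix.toLin_finTwoProd_apply]
  ext <;> simp <;> ring

theorem rotL_det (φ : ℝ) : LinearMap.det (rotL φ) = 1 := by
  unfold rotL
  rw [LinearMap.det_toLin, Matrix.det_fin_two_of]
  have := Real.cos_sq_add_sin_sq φ
  linarith

theorem rot_neg_rot (φ : ℝ) (q : P2) : rot (-φ) (rot φ q) = q := by
  unfold rot
  have h := Real.cos_sq_add_sin_sq φ
  ext
  · simp only [Real.cos_neg, Real.sin_neg]
    linear_combination q.1 * h
  · simp only [Real.cos_neg, Real.sin_neg]
    linear_combination q.2 * h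

theorem rot_rot_neg (φ : ℝ) (q : P2) : rot φ (rot (-φ) q) = q := by
  have h := rot_neg_rot (-φ) q
  rwa [neg_neg] at h

theorem rot_continuous (φ : ℝ) : Continuous (rot φ) := by
  unfold rot
  fun_prop

theorem rb_eq_preimage (K : Set P2) (φ : ℝ) : rb K φ = rotL φ ⁻¹' K := by
  ext q
  simp only [rb, mem_ofPred_eq, mem_preimage, rotL_apply]

theorem rb_eq_image (K : Set P2) (φ : ℝ) : rb K φ = rot (-φ) '' K := by
  ext q
  constructor
  · intro h
    exact ⟨rot φ q, h, rot_neg_rot φ q⟩
  · rintro ⟨p, hp, rfl⟩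
    change rot φ (rot (-φ) p) ∈ K
    rw [rot_rot_neg]
    exact hp

/-- the rotation preserves the volume -/
theorem volume_rb (K : Set P2) (φ : ℝ) : volume (rb K φ) = volume K := by
  rw [rb_eq_preimage, MeasureTheory.Measure.addHaar_preimage_linearMap volume
    (by rw [rotL_det]; exact one_ne_zero), rotL_det]
  simp

theorem hRBD : StRBD := by
  intro K hK φ
  refine ⟨⟨?_, ?_, ?_⟩, ?_⟩
  · rw [rb_eq_preimage]
    exact hK.cvx.linear_preimage (rotL φ)
  · rw [rb_eq_image]
    exact hK.cpt.image (rot_continuous (-φ))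
  · obtain ⟨x, hx⟩ := hK.int
    refine ⟨rot (-φ) x, ?_⟩
    have hsub : rot φ ⁻¹' (interior K) ⊆ rb K φ := by
      intro q hq
      have hq' : rot φ q ∈ interior K := hq
      exact interior_subset (s := K) hq'
    have hopen : IsOpen (rot φ ⁻¹' (interior K)) := isOpen_interior.preimage (rot_continuous φ)
    apply interior_maximal hsub hopen
    rw [mem_preimage, rot_rot_neg]
    exact hx
  · unfold vl
    rw [volume_rb]

end Pool.Agent.Helper49.CB
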