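import Pool.Agent.Helper27.CB.St

/-! # CB module RAD: widths of K and the difference body -/

set_option autoImplicit false

open MeasureTheory Set
open scoped ENNReal Pointwise

namespace Pool.Agent.Helper49.CB

open Pool.Agent.Helper27.CB

private theorem rot_rot_neg_RAD (φ : ℝ) (q : P2) : rot φ (rot (-φ) q) = q := by
  unfold rot
  have h := Real.cos_sq_add_sin_sq φ
  ext
  · simp only [Real.cos_neg, Real.sin_neg]
    linear_combination q.1 * h
  · simp only [Real.cos_neg, Real.sin_neg]
    linear_combination q.2 * h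

private theorem det2_sub_RAD (z a b : P2) : det2 z (a - b) = det2 z a - det2 z b := by
  unfold det2
  simp only [Prod.fst_sub, Prod.snd_sub]
  ring

private theorem det2_rot_RAD (φ : ℝ) (q : P2) :
    det2 (Real.cos φ, Real.sin φ) (rot φ q) = q.2 := by
  unfold det2 rot
  have h := Real.cos_sq_add_sin_sq φ
  simp only
  linear_combination q.2 * h

theorem hRAD : StRAD := by
  intro K hK
  refine ⟨⟨hK.cvx.sub hK.cvx, ?_, ?_⟩, ?_, ?_, ?_⟩
  · rw [sub_eq_add_neg]
    exact hK.cpt.add hK.cpt.neg
  · obtain ⟨x, hx⟩ := hK.int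
    refine ⟨x - x, ?_⟩
    exact subset_interior_sub_left (sub_mem_sub hx (interior_subset hx))
  · rintro z ⟨x, hx, y, hy, rfl⟩
    simp only [neg_sub]
    exact sub_mem_sub hy hx
  · intro φ
    unfold ho rad
    congr 1
    ext s
    constructor
    · rintro ⟨t, τ, h1, h2⟩
      have h3 : ((s * Real.cos φ, s * Real.sin φ) : P2) = rot φ (t + s, τ) - rot φ (t, τ) := by
        unfold rot
        ext
        · simp only [Prod.fst_sub]; ring
        · simp only [Prod.snd_sub]; ring
      change (s * Real.cos φ, s * Real.sin φ) ∈ K - K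
      rw [h3]
      exact sub_mem_sub h2 h1
    · intro hs
      have hs' : ((s * Real.cos φ, s * Real.sin φ) : P2) ∈ K - K := hs
      obtain ⟨x, hx, y, hy, he⟩ := mem_sub.1 hs'
      refine ⟨(rot (-φ) y).1, (rot (-φ) y).2, ?_, ?_⟩
      · change rot φ (rot (-φ) y) ∈ K
        rw [rot_rot_neg_RAD]
        exact hy
      · change rot φ ((rot (-φ) y).1 + s, (rot (-φ) y).2) ∈ K
        have h4 : rot φ ((rot (-φ) y).1 + s, (rot (-φ) y).2) =
            rot φ (rot (-φ) y) + (s * Real.cos φ, s * Real.sin φ) := by
          unfold rot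
          ext
          · simp only [Prod.fst_add]; ring
          · simp only [Prod.snd_add]; ring
        rw [h4, rot_rot_neg_RAD, ← he]
        simpa using hx
  · intro φ
    set e : P2 := (Real.cos φ, Real.sin φ) with he
    have hS : Prod.snd '' rb K φ = (fun x => det2 e x) '' K := by
      ext v
      constructor
      · rintro ⟨q, hq, rfl⟩
        exact ⟨rot φ q, hq, det2_rot_RAD φ q⟩
      · rintro ⟨x, hx, rfl⟩
        refine ⟨rot (-φ) x, ?_, ?_⟩
        · change rot φ (rot (-φ) x) ∈ K
          rw [rot_rot_neg_RAD]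
          exact hx
        · have := det2_rot_RAD φ (rot (-φ) x)
          rw [rot_rot_neg_RAD] at this
          exact this.symm
    have hcont : Continuous (fun x : P2 => det2 e x) := by
      unfold det2
      fun_prop
    have hcp : IsCompact ((fun x => det2 e x) '' K) := hK.cpt.image hcont
    have hne : ((fun x => det2 e x) '' K).Nonempty := by
      obtain ⟨x, hx⟩ := hK.int
      exact ⟨_, x, interior_subset hx, rfl⟩
    obtain ⟨a, ha, ea⟩ := hcp.sSup_mem hne
    obtain ⟨b, hb, eb⟩ := hcp.sInf_mem hne
    unfold ht nrm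
    rw [hS]
    symm
    apply IsGreatest.csSup_eq
    constructor
    · refine ⟨a - b, sub_mem_sub ha hb, ?_⟩
      simp only at ea eb ⊢
      rw [det2_sub_RAD, ea, eb, abs_of_nonneg]
      rw [sub_nonneg]
      exact csInf_le_csSup hne hcp.bddBelow hcp.bddAbove
    · rintro v ⟨z, hz, rfl⟩
      obtain ⟨x, hx, y, hy, rfl⟩ := mem_sub.1 hz
      simp only
      rw [det2_sub_RAD]
      have x1 := le_csSup hcp.bddAbove (mem_image_of_mem (fun x => det2 e x) hx)
      have x2 := csInf_le hcp.bddBelow (mem_image_of_mem (fun x => det2 e x) hx)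
      have y1 := le_csSup hcp.bddAbove (mem_image_of_mem (fun x => det2 e x) hy)
      have y2 := csInf_le hcp.bddBelow (mem_image_of_mem (fun x => det2 e x) hy)
      beta_reduce at x1 x2 y1 y2
      rw [abs_le]
      constructor <;> linarith

end Pool.Agent.Helper49.CB
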