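import Pool.Agent.Helper27.CB.St

/-! # CB module SNC: the product inequality -/

set_option autoImplicit false

open MeasureTheory Set
open scoped ENNReal Pointwise

namespace Pool.Agent.Helper49.CB

open Pool.Agent.Helper27.CB

/-- a compact convex nonempty symmetric set of reals is a segment `[-g, g]`, `g` is half of its
measure -/
theorem seg_SNC {s : Set ℝ} (hc : IsCompact s) (hv : Convex ℝ s) (hn : s.Nonempty)
    (hsy : ∀ x ∈ s, -x ∈ s) :
    sSup s ∈ s ∧ (∀ x, 0 ≤ x → x ≤ sSup s → x ∈ s) ∧ (volume s).toReal = 2 * sSup s := by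
  have h1 := hc.sInf_mem hn
  have h2 := hc.sSup_mem hn
  have h3 : sInf s ≤ sSup s := csInf_le_csSup hn hc.bddBelow hc.bddAbove
  have h4 : sInf s ≤ - sSup s := csInf_le hc.bddBelow (hsy _ h2)
  have h5 : - sInf s ≤ sSup s := le_csSup hc.bddAbove (hsy _ h1)
  have h6 : sInf s = - sSup s := by linarith
  have hseg : s = Icc (sInf s) (sSup s) := by
    apply Subset.antisymm
    · intro x hx
      exact ⟨csInf_le hc.bddBelow hx, le_csSup hc.bddAbove hx⟩
    · exact hv.ordConnected.out h1 h2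
  refine ⟨h2, ?_, ?_⟩
  · intro x hx0 hx
    rw [hseg]
    exact ⟨by linarith, hx⟩
  · conv_lhs => rw [hseg]
    rw [Real.volume_Icc, ENNReal.toReal_ofReal (by linarith), h6]
    ring

theorem hSNC (hP : StPLR) (hC : StSLC) (hK : StSLK) : StSNC := by
  intro D hD hS τ s hτ0 hτ hs0 hso
  obtain ⟨hPD, hPS⟩ := hP D hD hS
  -- the slice
  have hne : (Prod.snd '' D).Nonempty := by
    obtain ⟨x, hx⟩ := hD.int
    exact ⟨x.2, x, interior_subset hx, rfl⟩
  have hcp : IsCompact (Prod.snd '' D) := hD.cpt.image continuous_snd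
  have hcv : Convex ℝ (Prod.snd '' D) := by
    have := hD.cvx.linear_image (LinearMap.snd ℝ ℝ ℝ)
    exact this
  have hsy : ∀ x ∈ Prod.snd '' D, -x ∈ Prod.snd '' D := by
    rintro x ⟨z, hz, rfl⟩
    exact ⟨-z, hS z hz, rfl⟩
  have hτm : τ ∈ Prod.snd '' D := (seg_SNC hcp hcv hne hsy).2.1 τ hτ0 hτ
  obtain ⟨c1, -, c3, -⟩ := hC D hD
  obtain ⟨y, hy1, hy2⟩ := (c1 τ (len D τ) (c3 τ).1).2 ⟨hτm, le_rfl⟩
  -- the heights of the polar body
  obtain ⟨k1, k2, -⟩ := hK (plr D) hPD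
  have hsy' : ∀ x ∈ hs (plr D) (2 * s), -x ∈ hs (plr D) (2 * s) := by
    rintro x ⟨t, ht1, ht2⟩
    refine ⟨-t - 2 * s, ?_, ?_⟩
    · have := hPS _ ht2
      rw [Prod.neg_mk] at this
      convert this using 2
      ring
    · have := hPS _ ht1
      rw [Prod.neg_mk] at this
      convert this using 2
      ring
  obtain ⟨g1, -, g3⟩ := seg_SNC (k1 (2 * s)).1 (k1 (2 * s)).2 (k2 (2 * s) (by linarith) hso) hsy'
  set g : ℝ := sSup (hs (plr D) (2 * s)) with hg
  have hwd : wd (plr D) (2 * s) = 2 * g := g3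
  obtain ⟨t, ht1, ht2⟩ := g1
  have e1 := (abs_le.1 (ht2 _ hy1)).2
  have e2 := (abs_le.1 (ht1 _ hy2)).1
  unfold det2 at e1 e2
  simp only at e1 e2
  rw [hwd]
  nlinarith

end Pool.Agent.Helper49.CB
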